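import Pool.Agent.R828.PwLMain

/-!
# MP_8b81fd_gt: `|X| ≤ 2^{pwL(X) χ(X)}` fails for Hausdorff spaces

There are first countable Hausdorff spaces with `pwL(X) = ℵ₀` of cardinality larger than any
`ℶ_n`; the cardinalities of such spaces are exactly bounded by the first measurable cardinal.
-/

namespace Pool.Agent.Results.MP_8b81fd_gt.NonMeasurable

open Set Topology Pool.Agent.R828.PwL

open scoped Cardinal

universe u

/-- `pwL`, `chi`, `AlmostLindelof` and `NonMeas` are defined in `Pool/Agent/R828/PwL.lean`. -/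
theorem result :
    -- failure of the inequality, with arbitrarily large gap
    (∀ n : ℕ, ∃ (X : Type) (_ : TopologicalSpace X), T2Space X ∧ AlmostLindelof X ∧
      pwL X = ℵ₀ ∧ chi X = ℵ₀ ∧ 2 ^ (pwL X * chi X) < #X ∧ Cardinal.beth (n : Ordinal) < #X) ∧
    -- the exact bound
    (∀ (D : Type u), Infinite D → (NonMeas D ↔
      ∃ (X : Type u) (_ : TopologicalSpace X), T2Space X ∧ pwL X = ℵ₀ ∧ chi X = ℵ₀ ∧
        #D ≤ #X)) := by
  refine ⟨fun n => ?_, fun D hD => ⟨fun h => ?_, ?_⟩⟩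
  · have h0 : NonMeas (K ℕ (n+2)) := nonMeas_K nonMeas_of_countable _
    have hinf : Infinite (K ℕ (n+2)) := Cardinal.aleph0_le_mk_iff.1 (aleph0_le_K ℕ (n+2))
    obtain ⟨X, t, h1, h2, h3, h4⟩ := exists_space h0
    have h5 : pwL X = ℵ₀ := pwL_eq (hasPwL_of_almostLindelof h3)
    have h6 : chi X = ℵ₀ := chi_eq hasChar_of_firstCountable
    have h7 : Cardinal.beth ((n+2 : ℕ) : Ordinal) ≤ #X := (beth_le_K (n+2)).trans h4
    refine ⟨X, t, h1, h3, h5, h6, ?_, ?_⟩
    · rw [h5, h6, Cardinal.aleph0_mul_aleph0]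
      refine lt_of_lt_of_le ?_ h7
      have h8 : (2 : Cardinal) ^ ℵ₀ = Cardinal.beth ((1 : ℕ) : Ordinal) := by
        rw [Nat.cast_one, Cardinal.beth_one, Cardinal.two_power_aleph0]
      rw [h8]
      apply Cardinal.beth_strictMono
      exact_mod_cast (by omega : 1 < n + 2)
    · refine lt_of_lt_of_le ?_ h7
      apply Cardinal.beth_strictMono
      exact_mod_cast (by omega : n < n + 2)
  · obtain ⟨X, t, h1, h2, h3, h4⟩ := exists_space h
    exact ⟨X, t, h1, pwL_eq (hasPwL_of_almostLindelof h3), chi_eq hasChar_of_firstCountable, h4⟩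
  · rintro ⟨X, t, h1, h2, h3, h4⟩
    have := firstCountable_of_eq h3
    obtain ⟨e⟩ := (Cardinal.le_def _ _).1 h4
    exact (nonMeas_of_pwL (hasPwL_of_eq h2)).of_injective e e.injective

end Pool.Agent.Results.MP_8b81fd_gt.NonMeasurable
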